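import Pool.Agent.R917.DT.Mat
import Pool.Agent.R917.DT.Trv
import Pool.Agent.R917.DT.Rig

set_option autoImplicit false

/-!
# Grothendieck's period conjecture for motives of abelian type whose periods are algebraic

Let `A` be any abelian variety over the field `ℚ̄` of algebraic numbers. Let `U` be a subspace of
`H^1(A, ℚ) ^ {⊗ n}` which is a Hodge substructure and a subobject of the de Rham-Betti object, for
example the realization of a submotive of `h^1(A) ^ {⊗ n}`, and let `M = U(k)` be its Tate twist. As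
the polarization gives an isomorphism between `h^1(A)` and the dual of `h^1(A)(1)`, all objects of the
tensor category generated by `h^1(A)` are sums of such `M`.

**Theorem.** Suppose that all periods of `M` are algebraic numbers. Then the Mumford-Tate group of
`M` is commutative. The Mumford-Tate group of `M` is trivial

* if `A` has no factor of type IV (all endomorphisms in the centre of the algebra of endomorphisms
  are symmetric for the polarization), or
* if `A` is a direct factor, up to isogeny, of a determined abelian variety `B`: the Lie algebra of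
  the Hodge group of `B` has no proper algebraic subalgebras which act semisimply on `H_1(B, ℚ)` with
  the same commutant.

A Lie algebra of matrices over `ℚ` is called algebraic if it is closed under the replicas of its
diagonalizable elements (`IsReplicaClosed`; the Lie algebras of all algebraic groups over `ℚ` have
this property, by Chevalley). Determined are for example: products of elliptic curves with or without
complex multiplication (`determined_of_planes`); the simple abelian varieties with complex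
multiplication by a field `K` of degree `2 g` such that the odd part of `ℚ ^ Hom(K, ℂ)` is an
irreducible representation of the Galois group (`determined_of_typeTorus`); the Kuga-Satake varieties
of Hodge structures of K3 type with a totally real field of endomorphisms `F`, of rank not five over
`F` (`determined_of_typeSpin`), or with a CM field of endomorphisms `E`, of even rank over `E`, if `E`
is imaginary quadratic or general (`determined_of_typeUnitary`). Factors of determined abelian
varieties are for example the abelian varieties of even dimension `n ≥ 4` with multiplication by an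
imaginary quadratic field, of signature `(1, n - 1)`, and all simple abelian threefolds with complex
multiplication.

So for the motives `M` generated by an abelian variety of one of the two kinds the equality
`trdeg K(c_M) = dim MT(M)` holds if the left hand side is zero (and then `M` is a sum of unit
objects), and also if the right hand side is zero (by the theorem of Deligne: Hodge classes are
absolute Hodge classes): we have `trdeg K(c_M) = 0` if and only if `MT(M) = 1`. In other words, all
other motives of this kind, of any weight, have a transcendental period. And all motives generated by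
arbitrary abelian varieties whose Mumford-Tate group is not commutative have a transcendental
period, also if they are of weight zero (for example the adjoint motive, or `Sym^2 T (2)` and all
other tensor constructions of weight zero of the transcendental part `T` of `H^2` of a K3 surface).

Nothing is assumed about the periods: `AbVar` is the description of an abelian variety over `ℚ̄` by
theta functions, and the theorem of Schneider and Lang and the transcendence of `π` are proved in this
repository.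

## Proof

Let `𝔤` be the Lie algebra of the endomorphisms of `H_1(A, ℚ)` which annihilate all classes which are
at the same time Hodge classes and de Rham-Betti classes, and which preserve `U`, and let `𝔫` be the
ideal of the elements which annihilate `U`. It contains the rational components of the logarithmic
derivatives of the period matrix of `A` (the weight of `M` must be zero, by the transcendence of `π`),
so by the theorem of Schneider and Lang it acts semisimply on `H_1(A, ℚ)` and has the same commutant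
as `𝔤`. So the trace form is nondegenerate on `𝔫`, and the orthogonal complement of `𝔫` in `𝔤`
commutes with `𝔫` and therefore with `𝔤`: it is the centre of `𝔤`, up to elements of `𝔫`. So `𝔤` acts
on `U` through its centre, which is zero if there are no factors of type IV. The rational components
of the complex structure are elements of `𝔤`.

The Lie algebra `𝔫` is closed under replicas. Let `A` be a factor of `B`. The elements of the Lie
algebra of the Hodge group of `B` whose restriction to `H_1(A, ℚ)` is in `𝔫` form a Lie algebra which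
contains the logarithmic derivatives of the periods of `B`, and it is closed under replicas. So it
acts semisimply on `H_1(B, ℚ)`, with the same commutant. If `B` is determined it is equal to the Lie
algebra of the Hodge group of `B`, and so the complex structure of `H_1(A, ℝ)` is in `𝔫`
(`detJ_of_fac`).
-/

open Module Matrix Pool.Agent.Y102 Pool.Agent.W516.DR

noncomputable section

namespace Pool.Agent.Results.MP_57341d_ag.AlgebraicPeriods

variable {g : ℕ} (A : AbVar g)

/-- The elements of `H^1(A, ℚ) ^ {⊗ n}`: the multilinear forms in `n` variables in the rational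
homology. -/
abbrev Form (n : ℕ) : Type := MultilinearMap ℚ (fun _ : Fin n => A.H1) ℚ

/-- The values of the real extension of a form on vectors in `H_1(A, ℝ) = ℂ ^ g`. -/
def realExt {n : ℕ} (φ : Form A n) (v : Fin n → Fin g → ℂ) : ℝ :=
  ∑ J : Fin n → Fin (2 * g), ((φ (fun p => Pi.single (J p) 1) : ℚ) : ℝ) *
    ∏ p, A.lam.repr (v p) (J p)

/-- The span of the forms `u i` is preserved by the action of the complex number `z` (by
multiplication on `H_1(A, ℝ) = ℂ ^ g`), and `M` is the matrix of this action. -/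
def IsHodgeMatrix {n N : ℕ} (u : Fin N → Form A n) (z : ℂ) (M : Matrix (Fin N) (Fin N) ℝ) : Prop :=
  ∀ i (v : Fin n → Fin g → ℂ), realExt A (u i) (fun l => z • v l) = ∑ j, M j i * realExt A (u j) v

/-- The span `U` of the forms `u i` is a Hodge substructure of `H^1(A) ^ {⊗ n}`. -/
def IsHodgeSub {n N : ℕ} (u : Fin N → Form A n) : Prop :=
  ∀ z : ℂ, z ≠ 0 → ∃ M, IsHodgeMatrix A u z M

/-- `P` is the matrix of the comparison isomorphism of the subobject `U` with the basis `u`: it is
invertible, and the forms `w_i = ∑ j, P j i * u j` with complex values are linear combinations with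
algebraic coefficients of the tensor products of the elements of the basis of `H^1_dR(A / ℚ̄)`. -/
def IsPeriodMatrix {n N : ℕ} (u : Fin N → Form A n) (P : Matrix (Fin N) (Fin N) ℂ) : Prop :=
  P.det ≠ 0 ∧ ∃ a : Fin N → (Fin n → Fin g ⊕ Fin g) → QBar, ∀ i (v : Fin n → A.H1),
    ∑ j, P j i * ((u j v : ℚ) : ℂ) = ∑ J, algebraMap QBar ℂ (a i J) * ∏ l, A.dR (J l) (v l)

/-- All periods of `M = U(k)` are algebraic: the comparison isomorphism of `M` is
`(2 π i) ^ (-k) P`. -/
def HasAlgebraicPeriods {n N : ℕ} (u : Fin N → Form A n) (k : ℤ) : Prop :=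
  ∃ P : Matrix (Fin N) (Fin N) ℂ, IsPeriodMatrix A u P ∧
    ∀ i j, IsAlgebraic ℚ ((2 * Real.pi * Complex.I : ℂ) ^ (-k) * P i j)

/-- A subgroup of `GL_R(ℂ)` defined by polynomials with rational coefficients. -/
def IsAlgebraicSubgroup {R : Type} [Fintype R] [DecidableEq R] (G : Subgroup (GL R ℂ)) : Prop :=
  ∃ I : Set (MvPolynomial (R × R) ℚ), ∀ x : GL R ℂ, x ∈ G ↔
    ∀ p ∈ I, MvPolynomial.aeval (fun b : R × R => (x : Matrix R R ℂ) b.1 b.2) p = 0

/-- The Mumford-Tate group of `M = U(k)`: the smallest algebraic group over `ℚ` which contains the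
image of the Deligne torus; the complex number `z` acts on `ℚ(k)` by `(z z̄) ^ (-k)`. -/
def mumfordTate {n N : ℕ} (u : Fin N → Form A n) (k : ℤ) : Subgroup (GL (Fin N) ℂ) :=
  sInf {G | IsAlgebraicSubgroup G ∧ ∀ (z : ℂ) (M : Matrix (Fin N) (Fin N) ℝ), z ≠ 0 →
    IsHodgeMatrix A u z M → ∃ x ∈ G, (x : Matrix (Fin N) (Fin N) ℂ) =
      ((‖z‖ ^ 2 : ℝ) : ℂ) ^ (-k) • M.map (algebraMap ℝ ℂ)}

/-- `Q` is an endomorphism of the de Rham-Betti object `H_1(A)` (by a theorem of Bost these are the
elements of `End(A) ⊗ ℚ`). -/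
def IsEnd (Q : Module.End ℚ A.H1) : Prop := IsDeRhamBettiEnd QBar A.dR Q

/-- The Riemann form of the polarization, on the rational homology. -/
def rf (v w : A.H1) : ℂ := riemannForm A.lam A.η (A.per v) (A.per w)

/-- There are no factors of type IV: the elements of the centre of the algebra of endomorphisms
which are skew-symmetric for the polarization are zero. -/
def NoTypeIV : Prop := ∀ X : Module.End ℚ A.H1, IsEnd A X → (∀ Q, IsEnd A Q → X * Q = Q * X) →
  (∀ v w, rf A (X v) w = -rf A v (X w)) → X = 0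

theorem zA_of (h : NoTypeIV A) : ∀ X ∈ A.ZA, X = 0 := by
  rintro X ⟨h1, h2, h3⟩
  refine h X (A.mem_EA.1 h1) (fun Q hQ => h3 Q (A.mem_EA.2 hQ)) fun v w => ?_
  unfold rf
  rw [AbVar.rf_eq, AbVar.rf_eq]
  have h5 : A.om (X v) w = -A.om v (X w) := by linear_combination h2 v w
  exact_mod_cast h5

section Determined

open Pool.Agent.H204R3.GP Pool.Agent.R917.OM Pool.Agent.R917.DT

/-! ### The hypothesis on the Lie algebra of the Hodge group of the abelian variety -/

/-- The rational matrices which act on `H_1(A, ℚ) = ℚ^(2g)` (the basis is the basis of the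
lattice). -/
abbrev Mat (g : ℕ) : Type := Matrix (Fin (2 * g)) (Fin (2 * g)) ℚ

/-- The multilinear forms in `2m` variables in the rational homology. -/
abbrev PForm (m : ℕ) : Type := MultilinearMap ℚ (fun _ : Fin m × Fin 2 => A.H1) ℚ

/-- `φ` is a de Rham-Betti class in `H^1(A) ^ {⊗ 2m} (m)`. -/
def IsDRB {m : ℕ} (φ : PForm A m) : Prop :=
  IsDeRhamBettiForm QBar A.dR (2 * Real.pi * Complex.I) m φ

/-- `φ` is a Hodge class in `H^1(A) ^ {⊗ 2m} (m)`. -/
def IsHodge {m : ℕ} (φ : PForm A m) : Prop := IsHodgeTensor (A.per : A.H1 →+ (Fin g → ℂ)) φ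

/-- The matrix `X` annihilates the form `φ` (as a derivation). -/
def Annihilates {m : ℕ} (X : Mat g) (φ : PForm A m) : Prop :=
  ∀ v : Fin m × Fin 2 → Fin (2 * g) → ℚ, ∑ k, φ (Function.update v k (X *ᵥ v k)) = 0

/-- `X` is in the Lie algebra `𝔤` of the Hodge group: it annihilates all classes that are Hodge
classes and de Rham-Betti classes (by the theorem of Deligne all Hodge classes are de Rham-Betti
classes). -/
def InLie (X : Mat g) : Prop :=
  ∀ (m : ℕ) (φ : PForm A m), IsHodge A φ → IsDRB A φ → Annihilates A X φ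

/-- The subspace `𝔥` is a Lie algebra contained in `𝔤`. -/
def IsSubalgebra (𝔥 : Submodule ℚ (Mat g)) : Prop :=
  (∀ X ∈ 𝔥, InLie A X) ∧ ∀ X ∈ 𝔥, ∀ Y ∈ 𝔥, X * Y - Y * X ∈ 𝔥

/-- The subspace `U` of the homology is stable under the elements of `𝔥`. -/
def Stable (𝔥 : Submodule ℚ (Mat g)) (U : Submodule ℚ (Fin (2 * g) → ℚ)) : Prop :=
  ∀ X ∈ 𝔥, ∀ u ∈ U, X *ᵥ u ∈ U

/-- The action of `𝔥` on the homology is semisimple. -/
def IsSemisimple (𝔥 : Submodule ℚ (Mat g)) : Prop :=
  ∀ U, Stable 𝔥 U → ∃ U', Stable 𝔥 U' ∧ IsCompl U U'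

/-- Every matrix which commutes with `𝔥` commutes with `𝔤`. -/
def SameCommutant (𝔥 : Submodule ℚ (Mat g)) : Prop :=
  ∀ P : Mat g, (∀ X ∈ 𝔥, X * P = P * X) → ∀ X : Mat g, InLie A X → X * P = P * X

/-- The complex matrix of a rational matrix. -/
def cplx (X : Mat g) : Matrix (Fin (2 * g)) (Fin (2 * g)) ℂ := X.map (algebraMap ℚ ℂ)

/-- `𝔥` is closed under the replicas of its diagonalizable elements. Let `X ∈ 𝔥` be diagonalizable
over `ℂ`, with eigenvalues in the finite set `S`, let `σ : ℂ → ℂ` be additive, and let `Q` be a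
polynomial with `Q(a) = σ(a)` for all `a ∈ S`. Then the matrix `Q(X)` is in the complex span of
`𝔥`. -/
def IsReplicaClosed (𝔥 : Submodule ℚ (Mat g)) : Prop :=
  ∀ X ∈ 𝔥, ∀ (S : Finset ℂ) (σ : ℂ →+ ℂ) (Q : Polynomial ℂ),
    Polynomial.aeval (cplx X) (∏ a ∈ S, (Polynomial.X - Polynomial.C a)) = 0 →
    (∀ a ∈ S, Q.eval a = σ a) →
      Polynomial.aeval (cplx X) Q ∈ Submodule.span ℂ {Y | ∃ Z ∈ 𝔥, Y = cplx Z}

/-- The Hodge group of `A` is determined by the endomorphisms of `A`: its Lie algebra `𝔤` has no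
proper algebraic subalgebra `𝔥` which acts semisimply on the homology and has the same
commutant. -/
def Determined : Prop := ∀ 𝔥 : Submodule ℚ (Mat g), IsSubalgebra A 𝔥 → IsReplicaClosed 𝔥 →
  IsSemisimple 𝔥 → SameCommutant A 𝔥 → ∀ X, InLie A X → X ∈ 𝔥

/-! ### Factors -/

/-- `f` is a homomorphism (up to isogeny) from `A` to `B`: it is given by a linear map of the tangent
spaces, and the pull backs of the algebraic differential forms are algebraic. -/
def IsHomomorphism {g' : ℕ} (B : AbVar g') (f : A.H1 →ₗ[ℚ] B.H1) : Prop :=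
  (∃ F : (Fin g → ℂ) →ₗ[ℂ] (Fin g' → ℂ), ∀ w, F (A.per w) = B.per (f w)) ∧
    ∃ e : Fin g' ⊕ Fin g' → Fin g ⊕ Fin g → QBar,
      ∀ i w, B.dR i (f w) = ∑ j, algebraMap QBar ℂ (e i j) * A.dR j w

/-- `A` is a direct factor of `B`, up to isogeny. -/
def IsFactor {g' : ℕ} (B : AbVar g') : Prop :=
  ∃ (f : A.H1 →ₗ[ℚ] B.H1) (p : B.H1 →ₗ[ℚ] A.H1), IsHomomorphism A B f ∧
    IsHomomorphism B A p ∧ ∀ w, p (f w) = w

/-! ### Proofs -/

/-- The matrix of an endomorphism of the homology. -/
def mat (X : Module.End ℚ A.H1) : Mat g := LinearMap.toMatrix' X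

theorem mat_mulVec (X : Module.End ℚ A.H1) (v : Fin (2 * g) → ℚ) : mat A X *ᵥ v = X v :=
  LinearMap.toMatrix'_mulVec X v

theorem mat_mul (X Y : Module.End ℚ A.H1) : mat A (X * Y) = mat A X * mat A Y :=
  LinearMap.toMatrix'_mul X Y

theorem mat_br (X Y : Module.End ℚ A.H1) :
    mat A (X * Y - Y * X) = mat A X * mat A Y - mat A Y * mat A X := by
  rw [← mat_mul, ← mat_mul]
  exact map_sub (LinearMap.toMatrix' : _ ≃ₗ[ℚ] Mat g) _ _

theorem mat_inj {X Y : Module.End ℚ A.H1} (h : mat A X = mat A Y) : X = Y :=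
  (LinearMap.toMatrix' : _ ≃ₗ[ℚ] Mat g).injective h

theorem mat_surj (X : Mat g) : ∃ Y : Module.End ℚ A.H1, mat A Y = X :=
  (LinearMap.toMatrix' : _ ≃ₗ[ℚ] Mat g).surjective X

theorem inLie_mat {X : Module.End ℚ A.H1} : InLie A (mat A X) ↔ X ∈ A.NA := by
  constructor
  · intro h m φ h1 h2 v
    have h3 := h m φ h1 h2 v
    simp only [mat_mulVec] at h3
    exact h3
  · intro h m φ h1 h2 v
    simp only [mat_mulVec]
    exact h m φ h1 h2 v

theorem cplx_mat (X : Module.End ℚ A.H1) : cplx (mat A X) = toC X := (toC_eq X).symm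

theorem span_mat (𝔥 : Submodule ℚ (Module.End ℚ A.H1)) (𝔥' : Submodule ℚ (Mat g))
    (h : ∀ X : Module.End ℚ A.H1, mat A X ∈ 𝔥' ↔ X ∈ 𝔥) :
    Submodule.span ℂ {Y | ∃ Z ∈ 𝔥', Y = cplx Z} = Submodule.span ℂ {Y | ∃ Z ∈ 𝔥, Y = toC Z} := by
  congr 1
  ext Y
  constructor
  · rintro ⟨Z, hZ, rfl⟩
    obtain ⟨Z, rfl⟩ := mat_surj A Z
    exact ⟨Z, (h Z).1 hZ, cplx_mat A Z⟩
  · rintro ⟨Z, hZ, rfl⟩
    exact ⟨mat A Z, (h Z).2 hZ, (cplx_mat A Z).symm⟩

theorem det_of_determined (hA : Determined A) : Det A := by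
  intro 𝔥 h hRC
  let 𝔥' : Submodule ℚ (Mat g) := 𝔥.map (LinearMap.toMatrix' : _ ≃ₗ[ℚ] Mat g).toLinearMap
  have hmem : ∀ X : Module.End ℚ A.H1, mat A X ∈ 𝔥' ↔ X ∈ 𝔥 := by
    intro X
    constructor
    · rintro ⟨Y, hY, hYX⟩
      rw [← mat_inj A hYX]
      exact hY
    · intro hX
      exact ⟨X, hX, rfl⟩
  intro X hX
  rw [← hmem]
  refine hA 𝔥' ⟨?_, ?_⟩ ?_ ?_ ?_ _ ((inLie_mat A).2 hX)
  · rintro _ ⟨Y, hY, rfl⟩
    exact (inLie_mat A).2 (h.le hY)
  · rintro _ ⟨Y, hY, rfl⟩ _ ⟨Z, hZ, rfl⟩
    have h1 := (hmem (Y * Z - Z * Y)).2 (h.br Y hY Z hZ)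
    rw [mat_br] at h1
    exact h1
  · rintro _ ⟨Y, hY, rfl⟩ S σ Q hS hQ
    rw [span_mat A 𝔥 𝔥' hmem]
    change Polynomial.aeval (cplx (mat A Y)) _ = 0 at hS
    change Polynomial.aeval (cplx (mat A Y)) Q ∈ _
    rw [cplx_mat] at hS ⊢
    exact rc_iff.1 hRC Y hY S σ Q hS hQ
  · intro U hU
    obtain ⟨U', h1, h2⟩ := h.semi U (fun Y hY u hu => by
      have h3 := hU _ ((hmem Y).2 hY) u hu
      rwa [mat_mulVec] at h3)
    refine ⟨U', ?_, h2⟩
    rintro _ ⟨Y, hY, rfl⟩ u hu
    have h3 := h1 Y hY u hu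
    rwa [← mat_mulVec] at h3
  · intro P hP Y hY
    obtain ⟨P, rfl⟩ := mat_surj A P
    obtain ⟨Y, rfl⟩ := mat_surj A Y
    rw [← mat_mul, ← mat_mul]
    congr 1
    refine h.comm P (fun Z hZ => mat_inj A ?_) Y ((inLie_mat A).1 hY)
    rw [mat_mul, mat_mul]
    exact hP _ ((hmem Z).2 hZ)

theorem determined_of_det (hA : Det A) : Determined A := by
  intro 𝔥 hsub hrc hsemi hcomm X hX
  obtain ⟨X, rfl⟩ := mat_surj A X
  let 𝔥' : Submodule ℚ (Module.End ℚ A.H1) :=
    𝔥.comap (LinearMap.toMatrix' : _ ≃ₗ[ℚ] Mat g).toLinearMap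
  have hmem : ∀ X : Module.End ℚ A.H1, mat A X ∈ 𝔥 ↔ X ∈ 𝔥' := fun _ => Iff.rfl
  refine hA 𝔥' ⟨fun Y hY => (inLie_mat A).1 (hsub.1 _ hY), fun Y hY Z hZ => ?_, fun U hU => ?_,
    fun P hP Y hY => ?_⟩ (rc_iff.2 fun Y hY S σ Q hS hQ => ?_) ((inLie_mat A).1 hX)
  · change mat A (Y * Z - Z * Y) ∈ 𝔥
    rw [mat_br]
    exact hsub.2 _ hY _ hZ
  · obtain ⟨U', h1, h2⟩ := hsemi U (fun Y hY u hu => by
      obtain ⟨Y, rfl⟩ := mat_surj A Y
      rw [mat_mulVec]
      exact hU Y hY u hu)
    refine ⟨U', fun Y hY u hu => ?_, h2⟩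
    have h3 := h1 _ hY u hu
    rwa [show (LinearMap.toMatrix' : _ ≃ₗ[ℚ] Mat g).toLinearMap Y = mat A Y from rfl,
      mat_mulVec] at h3
  · refine mat_inj A ?_
    rw [mat_mul, mat_mul]
    refine hcomm _ (fun Z hZ => ?_) _ ((inLie_mat A).2 hY)
    obtain ⟨Z, rfl⟩ := mat_surj A Z
    rw [← mat_mul, ← mat_mul]
    exact congrArg (mat A) (hP Z hZ)
  · rw [← span_mat A 𝔥' 𝔥 hmem, ← cplx_mat]
    rw [← cplx_mat] at hS
    exact hrc _ hY S σ Q hS hQ

/-- Every abelian variety is a factor of itself. -/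
theorem isFactor_self {g : ℕ} (A : AbVar g) : IsFactor A A := by
  classical
  have h : IsHomomorphism A A LinearMap.id := by
    refine ⟨⟨LinearMap.id, fun w => rfl⟩, fun i j => if i = j then 1 else 0, fun i w => ?_⟩
    rw [Finset.sum_eq_single i]
    · beta_reduce
      rw [if_pos rfl, map_one, one_mul]
      rfl
    · intro j _ hj
      beta_reduce
      rw [if_neg (Ne.symm hj), map_zero, zero_mul]
    · intro h
      exact absurd (Finset.mem_univ _) h
  exact ⟨LinearMap.id, LinearMap.id, h, h, fun w => rfl⟩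

/-! ### Kuga-Satake varieties -/

/-- The complex Lie algebra `𝔤 ⊗ ℂ`, acting on `H_1(A, ℂ)`. -/
def lieC : Submodule ℂ (Matrix (Fin (2 * g)) (Fin (2 * g)) ℂ) :=
  Submodule.span ℂ {Y | ∃ X, InLie A X ∧ Y = X.map (algebraMap ℚ ℂ)}

/-- The Lie algebra `𝔤 ⊗ ℂ` is a sum of `k` orthogonal Lie algebras `so(r)`, acting by spin
representations, and `r` is at least three and not five: the `E i` are the generators of a Clifford
algebra acting on `H_1(A, ℂ)`, each of them has one of `k` colours, each colour is used `r` times,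
and `𝔤 ⊗ ℂ` is spanned by the products of two different generators of the same colour. -/
def TypeSpin : Prop :=
  ∃ (N k r : ℕ) (E : Fin N → Matrix (Fin (2 * g)) (Fin (2 * g)) ℂ) (c : Fin N → Fin k),
    3 ≤ r ∧ r ≠ 5 ∧ (∀ i, E i * E i = 1) ∧ (∀ i j, i ≠ j → E i * E j = -(E j * E i)) ∧
    (∀ σ, (Finset.univ.filter fun j => c j = σ).card = r) ∧
    lieC A = Submodule.span ℂ {Y | ∃ i j, i ≠ j ∧ c i = c j ∧ Y = E i * E j}

theorem lieC_eq : lieC A = Submodule.span ℂ {Y | ∃ X ∈ A.NA, Y = toC X} := by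
  unfold lieC
  congr 1
  ext Y
  constructor
  · rintro ⟨X, hX, rfl⟩
    obtain ⟨X, rfl⟩ := mat_surj A X
    exact ⟨X, (inLie_mat A).1 hX, (toC_eq X).symm⟩
  · rintro ⟨X, hX, rfl⟩
    exact ⟨mat A X, (inLie_mat A).2 hX, toC_eq X⟩

/-- The Kuga-Satake varieties are determined. -/
theorem determined_of_typeSpin (h : TypeSpin A) : Determined A := by
  obtain ⟨N, k, r, E, c, h3, h5, e1, e2, hc, hl⟩ := h
  rw [lieC_eq] at hl
  exact determined_of_det A fun 𝔥 hf _ => hf.of_spinMat h3 h5 e1 e2 hc hl

/-! ### Unitary type -/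

/-- The centre of the Lie algebra `𝔤` has no proper nonzero algebraic subalgebras. -/
def SimpleCentre : Prop := ∀ 𝔷 : Submodule ℚ (Mat g),
  (∀ X ∈ 𝔷, InLie A X ∧ ∀ Y : Mat g, InLie A Y → X * Y = Y * X) → IsReplicaClosed 𝔷 →
    𝔷 = ⊥ ∨ ∀ X : Mat g, InLie A X → (∀ Y : Mat g, InLie A Y → X * Y = Y * X) → X ∈ 𝔷

/-- The Lie algebra `𝔤 ⊗ ℂ` is a sum of `k` algebras `gl(W_σ)` with `W_σ` of even dimension, acting on
`H_1(A, ℂ)` by a multiple of the tensor product of the exterior algebras of the `W_σ`, twisted by the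
inverses of the square roots of the determinants: the `a i` and `b i` are creation and annihilation
operators, each of them has one of `k` colours, each colour is used an even number of times, and
`𝔤 ⊗ ℂ` is spanned by the matrices `a i * b j - δ i j / 2`, `i` and `j` of the same colour. If there
is more than one colour, the centre of `𝔤` has no proper nonzero algebraic subalgebras. -/
def TypeUnitary : Prop :=
  ∃ (n k : ℕ) (a b : Fin n → Matrix (Fin (2 * g)) (Fin (2 * g)) ℂ) (c : Fin n → Fin k),
    (∀ σ, Even (Finset.univ.filter fun j => c j = σ).card) ∧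
    (∀ i j, a i * a j = -(a j * a i)) ∧ (∀ i j, b i * b j = -(b j * b i)) ∧
    (∀ i j, a i * b j + b j * a i = if i = j then 1 else 0) ∧
    lieC A = Submodule.span ℂ {Y | ∃ i j, c i = c j ∧
      Y = a i * b j - if i = j then (2⁻¹ : ℂ) • 1 else 0} ∧
    (k = 1 ∨ SimpleCentre A)

theorem simpleCentre_CN (h : SimpleCentre A) (𝔷 : Submodule ℚ (Module.End ℚ A.H1))
    (hz : 𝔷 ≤ A.CN) (hRC : RC 𝔷) : 𝔷 = ⊥ ∨ A.CN ≤ 𝔷 := by
  let 𝔷' : Submodule ℚ (Mat g) := 𝔷.map (LinearMap.toMatrix' : _ ≃ₗ[ℚ] Mat g).toLinearMap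
  have hmem : ∀ X : Module.End ℚ A.H1, mat A X ∈ 𝔷' ↔ X ∈ 𝔷 := by
    intro X
    constructor
    · rintro ⟨Y, hY, hYX⟩
      rw [← mat_inj A hYX]
      exact hY
    · intro hX
      exact ⟨X, hX, rfl⟩
  have h1 : ∀ X ∈ 𝔷', InLie A X ∧ ∀ Y : Mat g, InLie A Y → X * Y = Y * X := by
    rintro _ ⟨X, hX, rfl⟩
    have h2 := hz hX
    refine ⟨(inLie_mat A).2 h2.1, fun Y hY => ?_⟩
    obtain ⟨Y, rfl⟩ := mat_surj A Y
    have h3 := congrArg (mat A) (h2.2 Y ((inLie_mat A).1 hY))
    rw [mat_mul, mat_mul] at h3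
    exact h3.symm
  have h2 : IsReplicaClosed 𝔷' := by
    rintro _ ⟨Y, hY, rfl⟩ S σ Q hS hQ
    rw [span_mat A 𝔷 𝔷' hmem]
    change Polynomial.aeval (cplx (mat A Y)) _ = 0 at hS
    change Polynomial.aeval (cplx (mat A Y)) Q ∈ _
    rw [cplx_mat] at hS ⊢
    exact rc_iff.1 hRC Y hY S σ Q hS hQ
  rcases h 𝔷' h1 h2 with h0 | h0
  · left
    rw [eq_bot_iff]
    intro X hX
    have h3 := (hmem X).2 hX
    rw [h0, Submodule.mem_bot] at h3
    rw [Submodule.mem_bot]
    exact mat_inj A (h3.trans (map_zero (LinearMap.toMatrix' : _ ≃ₗ[ℚ] Mat g)).symm)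
  · right
    intro X hX
    rw [← hmem]
    refine h0 _ ((inLie_mat A).2 hX.1) fun Y hY => ?_
    obtain ⟨Y, rfl⟩ := mat_surj A Y
    rw [← mat_mul, ← mat_mul, hX.2 Y ((inLie_mat A).1 hY)]

/-- The abelian varieties of unitary type are determined. -/
theorem determined_of_typeUnitary (h : TypeUnitary A) : Determined A := by
  obtain ⟨n, k, a, b, c, hn, aa, bb, hab, hl, hk⟩ := h
  have hev : ∀ i : Fin n, Even (Finset.univ.filter fun j => c j = c i).card := fun i => hn (c i)
  have hl' : Submodule.span ℂ {Y | ∃ X ∈ A.NA, Y = toC X} =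
      Submodule.span ℂ {Y | ∃ i j, c i = c j ∧ Y = Pool.Agent.R912.gM a b i j} := by
    rw [← lieC_eq, hl]
    rfl
  rcases hk with hk | hk
  · subst hk
    exact determined_of_det A fun 𝔥 hf _ => Pool.Agent.R912.full_unitary1 hf
      (Pool.Agent.R912.car_mat aa bb hab) (Pool.Agent.R912.cx_NA_eq aa bb hab hev hl') hev
      fun i j => Subsingleton.elim _ _
  · exact determined_of_det A (det_unitary (Pool.Agent.R912.car_mat aa bb hab)
      (Pool.Agent.R912.cx_NA_eq aa bb hab hev hl') hev (simpleCentre_CN A hk))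

/-! ### Complex multiplication -/

/-- The Lie algebra `𝔤` is commutative and has no proper nonzero algebraic subalgebras: the Hodge
group is a simple torus. -/
def TypeTorus : Prop :=
  (∀ X Y : Mat g, InLie A X → InLie A Y → X * Y = Y * X) ∧ SimpleCentre A

/-- The abelian varieties with complex multiplication whose Hodge group is a simple torus are
determined. -/
theorem determined_of_typeTorus (h : TypeTorus A) : Determined A := by
  refine determined_of_det A (det_torus (fun X hX Y hY => ?_) (simpleCentre_CN A h.2))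
  have h1 := h.1 (mat A X) (mat A Y) ((inLie_mat A).2 hX) ((inLie_mat A).2 hY)
  rw [← mat_mul, ← mat_mul] at h1
  exact mat_inj A h1

/-! ### Sums of planes -/

namespace Planes

/-- The endomorphisms of the rational homology `H_1(A, ℚ) = ℚ^(2g)` (the basis is the basis of the
lattice). -/
abbrev EndH (g : ℕ) : Type := Module.End ℚ (Fin (2 * g) → ℚ)

/-- The endomorphisms of the complex homology `H_1(A, ℂ) = ℂ^(2g)`. -/
abbrev MatC (g : ℕ) : Type := Matrix (Fin (2 * g)) (Fin (2 * g)) ℂ

/-- The complex matrix of a rational endomorphism. -/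
def mat (T : EndH g) : MatC g := (LinearMap.toMatrix' T).map (algebraMap ℚ ℂ)

/-- `T` is an endomorphism of `A` over `ℂ`, up to isogeny (an element of `End(A_ℂ) ⊗ ℚ`): it extends
to a complex linear endomorphism of the tangent space `ℂ ^ g`. -/
def IsComplexEnd (T : EndH g) : Prop := IsHodgeEnd (A.per : A.H1 →+ (Fin g → ℂ)) T

/-- `T` is an endomorphism of `A` over `ℚ̄`, up to isogeny, in terms of its action on
`H^1_dR(A / ℚ̄)`: the periods and quasi-periods of `T(w)` are linear combinations with algebraic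
coefficients of those of `w`. -/
def IsAlgebraicEnd (T : EndH g) : Prop := IsDeRhamBettiEnd QBar A.dR T

/-- The matrix of the Riemann form of the polarization in the basis of the lattice. -/
def riemannMatrix : MatC g := Matrix.of fun i j =>
  (∑ k, (A.η i k * A.lam j k - A.η j k * A.lam i k)) / (2 * Real.pi * Complex.I)

/-- The projector `P` is symmetric with respect to the polarization. -/
def IsSymmetric (P : MatC g) : Prop := Pᵀ * riemannMatrix A = riemannMatrix A * P

/-- The homology `H_1(A, ℂ)` is the sum of the planes `V_i = P_i H_1(A, ℂ)`, `i = 1, ..., g`, given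
by projectors `P_i` of rank two in `End(A) ⊗ ℂ`. Each of them is the homology of an elliptic curve
(`P_i` is rational), or `P_i` is symmetric and `P_i End(A) P_i = ℂ P_i`. Two of the elliptic curves
are isogenous over `ℚ̄` or not isogenous over `ℂ` (this is always the case for elliptic curves over
`ℚ̄`). -/
structure IsPlaneDecomposition (P : Fin g → MatC g) : Prop where
  algebraic : ∀ i, P i ∈ Submodule.span ℂ {M | ∃ T, IsAlgebraicEnd A T ∧ M = mat T}
  projector : ∀ i, P i * P i = P i
  sum : ∑ i, P i = 1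
  plane : ∀ i, (P i).trace = 2
  type : ∀ i, (∃ E : EndH g, P i = mat E) ∨
    (IsSymmetric A (P i) ∧ ∀ T, IsAlgebraicEnd A T → ∃ z : ℂ, P i * mat T * P i = z • P i)
  isogeny : ∀ i j (E E' : EndH g), i ≠ j → P i = mat E → P j = mat E' →
    (∃ T, IsAlgebraicEnd A T ∧ E' * T * E ≠ 0) ∨ ∀ T, IsComplexEnd A T → E' * T * E = 0

/-- The homology of `A` is a sum of planes as above. -/
def IsSumOfPlanes : Prop := ∃ P : Fin g → MatC g, IsPlaneDecomposition A P

theorem mat_eq (T : EndH g) : mat T = toC T := (toC_eq T).symm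

theorem matE_mat (T : EndH g) : matE (2 * g) (mat T) = T.baseChange ℂ := by
  rw [mat_eq, matE_toC]

theorem riemannMatrix_eq : riemannMatrix A = Pool.Agent.R917.GL.omM A := by
  have hl : ∀ j, A.per (Pi.single j 1) = A.lam j := by
    intro j
    unfold AbVar.per
    rw [Fintype.linearCombination_apply_single, one_smul]
  ext i j
  have h1 : ((A.om (Pi.single i 1) (Pi.single j 1) : ℚ) : ℂ) =
      ((A.E (A.lam i) (A.lam j) : ℝ) : ℂ) := by
    rw [← hl i, ← hl j, ← A.om_coe]
    exact (Complex.ofReal_ratCast _).symm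
  change _ = ((A.om (Pi.single i 1) (Pi.single j 1) : ℚ) : ℂ)
  rw [h1, A.E_coe]
  unfold riemannForm
  have h2 : ∀ i k, (∑ j, (A.lam.repr (A.lam i) j : ℂ) * A.η j k) = A.η i k := by
    intro i k
    rw [Finset.sum_eq_single i]
    · rw [Basis.repr_self, Finsupp.single_eq_same]
      push_cast
      ring
    · intro j _ hj
      rw [Basis.repr_self, Finsupp.single_eq_of_ne hj]
      push_cast
      ring
    · intro h
      exact absurd (Finset.mem_univ _) h
  simp only [h2]
  rfl

/-- The data of the isogeny classes. -/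
theorem exists_classes (hA : IsSumOfPlanes A) :
    ∃ (C : Type) (_ : Finite C), Nonempty (Pool.Agent.R917.EC.CMS A C) := by
  obtain ⟨P, hP⟩ := hA
  have hcx : ∀ i, matE (2 * g) (P i) ∈ cx A.EA := by
    intro i
    have h1 : P i ∈ Submodule.span ℂ {Y | ∃ X ∈ A.EA, Y = toC X} := by
      refine Submodule.span_mono ?_ (hP.algebraic i)
      rintro _ ⟨T, hT, rfl⟩
      exact ⟨T, A.mem_EA.2 hT, mat_eq T⟩
    have h2 := Submodule.mem_map_of_mem (f := (matE (2 * g)).toLinearMap) h1
    rw [map_lie] at h2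
    exact h2
  have hrat : ∀ i (T : EndH g), matE (2 * g) (P i) = T.baseChange ℂ → P i = mat T := by
    intro i T h
    rw [← matE_mat] at h
    exact (matE (2 * g)).injective h
  refine Pool.Agent.R917.GL.exists_CMS_of (P := fun i => matE (2 * g) (P i)) hcx (fun i => ?_) ?_ (fun i => ?_)
    (fun i => ?_) ?_
  · rw [← map_mul, hP.projector]
  · rw [← map_sum, hP.sum, map_one]
  · rw [Pool.Agent.R917.GL.trace_matE, hP.plane]
  · rcases hP.type i with ⟨T, hT⟩ | ⟨h1, h2⟩
    · exact Or.inl ⟨T, by rw [hT, matE_mat]⟩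
    · refine Or.inr ⟨fun X hX => ?_, fun T hT => ?_⟩
      · have hc : toC X * P i = P i * toC X := by
          have h3 := Pool.Agent.R917.GL.CC_of_cx (bc_mem hX) _ (hcx i)
          rw [← matE_toC, ← map_mul, ← map_mul] at h3
          exact (matE (2 * g)).injective h3
        rw [← matE_toC, ← map_mul, Pool.Agent.R917.GL.trace_matE]
        refine Pool.Agent.R917.GL.trace_sym ?_ hX hc
        rw [← riemannMatrix_eq]
        exact h1
      · obtain ⟨z, hz⟩ := h2 T (A.mem_EA.1 hT)
        refine ⟨z, ?_⟩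
        rw [← matE_mat, ← map_mul, ← map_mul, hz, map_smul]
  · intro i j E E' hij hi hj
    rcases hP.isogeny i j E E' hij (hrat i E hi) (hrat j E' hj) with ⟨T, hT, hT0⟩ | h
    · exact Or.inl ⟨T, A.mem_EA.2 hT, hT0⟩
    · exact Or.inr fun T hT => h T hT

end Planes

/-- The abelian varieties whose homology is a sum of planes (products of elliptic curves and of
abelian varieties with real or quaternion multiplication) are determined. -/
theorem determined_of_planes (h : Planes.IsSumOfPlanes A) : Determined A := by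
  obtain ⟨C, hC, ⟨S⟩⟩ := Planes.exists_classes A h
  exact determined_of_det A (det_of_CMS S)

theorem detJ_of {g' : ℕ} {B : AbVar g'} (hB : Determined B) (hA : IsFactor A B) : DetJ A := by
  obtain ⟨f, p, hf, hp, hpf⟩ := hA
  exact detJ_of_fac (f := f) (p := p) ⟨⟨hf.1, hf.2⟩, ⟨hp.1, hp.2⟩, hpf⟩ (det_of_determined B hB)

end Determined

/-- The trivial group is algebraic. -/
theorem bot_alg {R : Type} [Fintype R] [DecidableEq R] :
    IsAlgebraicSubgroup (⊥ : Subgroup (GL R ℂ)) := by
  refine ⟨{p | ∃ i j : R, p = MvPolynomial.X (i, j) - MvPolynomial.C (if i = j then 1 else 0)},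
    fun x => ⟨?_, fun h => ?_⟩⟩
  · rintro hx _ ⟨i, j, rfl⟩
    rw [Subgroup.mem_bot] at hx
    subst hx
    rw [map_sub, MvPolynomial.aeval_X, MvPolynomial.aeval_C, Units.val_one, Matrix.one_apply]
    split_ifs <;> simp
  · rw [Subgroup.mem_bot]
    refine Units.ext ?_
    ext i j
    have h1 := h _ ⟨i, j, rfl⟩
    rw [map_sub, MvPolynomial.aeval_X, MvPolynomial.aeval_C] at h1
    rw [Units.val_one, Matrix.one_apply]
    have h2 := sub_eq_zero.1 h1
    rw [h2]
    split_ifs <;> simp

/-- **Theorem.** If all periods of a motive `M = U(k)` generated by an abelian variety over `ℚ̄` are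
algebraic numbers, then the Mumford-Tate group of `M` is commutative, and it is trivial if the
abelian variety has no factors of type IV or if it is a factor of a determined abelian variety. -/
theorem result (g n N : ℕ) (A : AbVar g) (u : Fin N → Form A n) (k : ℤ)
    (hu : LinearIndependent ℚ u) (hU : IsHodgeSub A u) (hP : HasAlgebraicPeriods A u k) :
    (∀ x ∈ mumfordTate A u k, ∀ y ∈ mumfordTate A u k, x * y = y * x) ∧
      (NoTypeIV A → mumfordTate A u k = ⊥) ∧
      ∀ (g' : ℕ) (B : AbVar g'), Determined B → IsFactor A B → mumfordTate A u k = ⊥ := by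
  obtain ⟨P, ⟨hdet, hPer⟩, halg⟩ := hP
  set s : ℂ := (2 * Real.pi * Complex.I : ℂ) ^ (-k) with hs0
  have hs : s ≠ 0 := zpow_ne_zero _ AbVar.tau_ne
  have hsP : (s • P).det ≠ 0 := by
    rw [Matrix.det_smul]
    exact mul_ne_zero (pow_ne_zero _ hs) hdet
  obtain ⟨T, hT1, hT2⟩ := Pool.Agent.R917.alg_inv (T := s • P) (fun i j => halg i j) hsP
  have hmain := Pool.Agent.R917.bridge (A := A) (u := u) (G := ⊥) (P := P) (T := T) (s := s)
    (x := 1) bot_alg
    (by
      intro x hx y hy
      rw [Subgroup.mem_bot] at hx hy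
      rw [hx, hy])
    hPer (fun i j => Pool.Agent.R917.mem_QA.1 (hT2 i j)) hs (one_mem _)
    (by rw [Units.val_one, hT1])
  have hconv : ∀ (z : ℂ) (M : Matrix (Fin N) (Fin N) ℝ),
      Pool.Agent.R917.IsHM A u z M ↔ IsHodgeMatrix A u z M := by
    intro z M
    unfold Pool.Agent.R917.IsHM IsHodgeMatrix
    simp only [Pool.Agent.R917.Phi_eq]
    rfl
  have hU' : ∀ z : ℂ, z ≠ 0 → ∃ M, Pool.Agent.R917.IsHM A u z M := fun z hz => by
    obtain ⟨M, hM⟩ := hU z hz
    exact ⟨M, (hconv z M).2 hM⟩
  have hr : ∀ z : ℂ, z ≠ 0 → (((‖z‖ ^ 2 : ℝ) : ℂ) ^ (-k)) ≠ 0 := by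
    intro z hz
    refine zpow_ne_zero _ ?_
    have : (‖z‖ ^ 2 : ℝ) ≠ 0 := pow_ne_zero _ (norm_ne_zero_iff.2 hz)
    exact_mod_cast this
  -- the weight is zero
  have hw : 0 < N → (n : ℤ) = 2 * k := by
    intro hN
    obtain ⟨a, ha⟩ := Pool.Agent.R917.compat_of hPer hs (fun i j => hT2 i j) hT1 ⟨0, hN⟩
    have h2 := A.weight (w := k) (a := a) (φ := u ⟨0, hN⟩) (fun v => by
      rw [← ha v, hs0, _root_.zpow_neg, inv_inv]) (hu.ne_zero _)
    rwa [Fintype.card_fin] at h2
  have key : (∀ (z : ℂ) (M : Matrix (Fin N) (Fin N) ℝ), IsHodgeMatrix A u z M →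
      M = (‖z‖ ^ Fintype.card (Fin n)) • (1 : Matrix (Fin N) (Fin N) ℝ)) →
      mumfordTate A u k = ⊥ := by
    intro hM
    rw [eq_bot_iff]
    refine sInf_le ⟨bot_alg, fun z M hz hzM => ⟨1, one_mem _, ?_⟩⟩
    have h1 := hM z M hzM
    rcases Nat.eq_zero_or_pos N with hN | hN
    · subst hN
      ext i
      exact i.elim0
    rw [h1, Fintype.card_fin, Units.val_one]
    have h3 : ((‖z‖ ^ n) • (1 : Matrix (Fin N) (Fin N) ℝ)).map (algebraMap ℝ ℂ) =
        ((‖z‖ ^ n : ℝ) : ℂ) • (1 : Matrix (Fin N) (Fin N) ℂ) := by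
      ext i j
      rw [Matrix.map_apply, Matrix.smul_apply, Matrix.smul_apply, Matrix.one_apply,
        Matrix.one_apply, smul_eq_mul, smul_eq_mul, map_mul]
      split_ifs <;> simp
    rw [h3, smul_smul]
    have h4 : (((‖z‖ ^ 2 : ℝ) : ℂ) ^ (-k)) * ((‖z‖ ^ n : ℝ) : ℂ) = 1 := by
      have hz0 : ((‖z‖ : ℝ) : ℂ) ≠ 0 := by exact_mod_cast norm_ne_zero_iff.2 hz
      push_cast
      rw [← zpow_natCast ((‖z‖ : ℝ) : ℂ) 2, ← zpow_natCast ((‖z‖ : ℝ) : ℂ) n, ← _root_.zpow_mul,
        ← zpow_add₀ hz0, hw hN]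
      have : ((2 : ℕ) : ℤ) * -k + 2 * k = 0 := by push_cast; ring
      rw [this, zpow_zero]
    rw [h4, one_smul]
  refine ⟨?_, fun hIV => ?_, fun g' B hB hAB => ?_⟩
  · obtain ⟨G', hG', hc', hM⟩ := Pool.Agent.R917.exists_mt hu hU' hmain
    have hle : mumfordTate A u k ≤ G' := by
      refine sInf_le ⟨hG', fun z M hz hzM => ?_⟩
      exact hM z M hz ((hconv z M).2 hzM) _ (hr z hz)
    exact fun x hx y hy => hc' x (hle hx) y (hle hy)
  · exact key fun z M hzM =>
      Pool.Agent.R917.trivial_of hu hU' hmain (zA_of A hIV) ((hconv z M).2 hzM)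
  · rcases Nat.eq_zero_or_pos N with hN | hN
    · subst hN
      refine key fun z M _ => ?_
      ext i
      exact i.elim0
    · have hJ := detJ_of A hB hAB
      refine key fun z M hzM => Pool.Agent.R917.DT.trivial_of_J hu hU'
        (Pool.Agent.R917.DT.J_mem_nU hJ fun D lam =>
          Pool.Agent.R917.DT.kills_span' fun i => ?_) ((hconv z M).2 hzM)
      obtain ⟨a, ha⟩ := Pool.Agent.R917.compat_of hPer hs (fun i j => hT2 i j) hT1 i
      refine Pool.Agent.R917.DT.kills_of_compat (w := k) (a := a) (fun v => ?_) ?_ D lam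
      · rw [← ha v, hs0, _root_.zpow_neg, inv_inv]
      · rw [Fintype.card_fin]
        exact hw hN

end Pool.Agent.Results.MP_57341d_ag.AlgebraicPeriods
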