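import Pool.Agent.Results.MP_cbf1af_ag.AllTuplesDegenerating
import Pool.Agent.R739.HA.Rank

/-!
# The transcendence degree of the periods of ALL k-tuples of hypergeometric motives of Calabi–Yau type in short windows

Let `β_1, …, β_m` be rational numbers which are not integers and `θ = z d/dz`. The hypergeometric operator
`θ^(2m) - z ∏_j (θ - β_j) (θ + β_j)` has maximally unipotent monodromy at `z = 0`. For `m = 1` its solutions are periods of
families of elliptic curves, for `m = 2` and `β = (1/5, 2/5)` it is contiguous to the operator of the mirror quintic. Let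
`f_0, …, f_{2m-1}` be the Frobenius basis of its solutions. The period matrix of the fibre at `z` of the corresponding family of
motives over `ℚ(z)` is the product of the matrix `Y(z)` of the numbers `(θ^i f_j)(z)` and of the constant matrix `Ω` of the
periods of the limit mixed motive.

For ALL `k`-tuples of integers `t_1, …, t_k` in a short interval `[M, M + M^c]` at distance at least `G` of each other, the
transcendence degree, in degree at most `δ`, of the numbers `log t_l` and of the periods at `z = 1 / t_l` is at least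
`(k - 1) (m (2 m + 1) + 1)`, uniformly in the invertible matrix `Ω`, in the number fields of degree at most `D` and in the bases;
and at least `k (m (2 m + 1) + 1) - (s + 1)` if the entries of `Ω` are algebraic over a field generated by `s` numbers. The
dimension of the symplectic group in which the matrices `Y` lie is `m (2 m + 1)`, so that there are no more than
`k (m (2 m + 1) + 1)` independent ones among the `log t_l` and the entries of the matrices `Y(1 / t_l)`. There are no exceptional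
fibres and no exceptional tuples.
-/

set_option autoImplicit false

open PowerSeries Module

namespace Pool.Agent.Results.MP_57341d_ag.HypergeometricAllTuples

/-- the power series `k + ε` in the variable `ε` -/
noncomputable def shift (k : ℕ) : PowerSeries ℚ := C (k : ℚ) + X

/-- `a_k(ε) = ∏_{l < k} ∏_j ((l + ε)^2 - β_j^2) / (l + 1 + ε)^(2m)`. The series `∑_k a_k(ε) z^(k + ε)` solves the
equation `(θ^n - z ∏_j (θ^2 - β_j^2)) f = ε^n z^ε`, hence its coefficients `f_j` at `ε^j` with `j < n = 2m` are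
solutions of the homogeneous equation. -/
noncomputable def frob {m : ℕ} (β : Fin m → ℚ) (k : ℕ) : PowerSeries ℚ :=
  ∏ l ∈ Finset.range k, ((∏ j, (shift l ^ 2 - C (β j ^ 2))) * ((shift (l + 1))⁻¹) ^ (2 * m))

/-- The matrix with the entries `(θ^i f_j)(1 / t)`, where `f_j(z)` is the coefficient of `ε^j` in the series
`∑_k a_k(ε) z^(k + ε)`, `z^ε = ∑_l (log z)^l ε^l / l!`. -/
noncomputable def Y {m : ℕ} (β : Fin m → ℚ) (t : ℕ) : Matrix (Fin (2 * m)) (Fin (2 * m)) ℂ :=
  Matrix.of fun i j => ∑ l ∈ Finset.range ((j : ℕ) + 1), ((Real.log (1 / t) ^ l / l.factorial : ℝ) : ℂ) *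
    ∑' k : ℕ, ((coeff ((j : ℕ) - l) (shift k ^ (i : ℕ) * frob β k) : ℚ) : ℂ) * (1 / (t : ℂ)) ^ k

/-- Some `r` of the numbers `L_1, …, L_k` and of the entries of the matrices `P_1, …, P_k` (at `r` different places) satisfy no
nonzero polynomial relation of degree at most `δ` in each unknown with coefficients in `K`. -/
def TrdegGe {n k : ℕ} (r δ : ℕ) (K : IntermediateField ℚ ℂ) (L : Fin k → ℂ) (P : Fin k → Matrix (Fin n) (Fin n) ℂ) : Prop :=
  ∃ σ : Fin r → Fin k × Option (Fin n × Fin n), Function.Injective σ ∧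
    ∀ Q : MvPolynomial (Fin r) K, (∀ i, Q.degreeOf i ≤ δ) →
      MvPolynomial.aeval (fun i => (σ i).2.elim (L (σ i).1) fun p => P (σ i).1 p.1 p.2) Q = 0 → Q = 0

/-- Conclusion of the theorem: for all `k`-tuples of integers in `[M, M + M^c]` at distance at least `G`, all number fields `K`
of degree at most `D` and all changes of bases `R_l, S_l` over `K`, the transcendence degree of the numbers `log t_l` and of the
entries of the period matrices `R_l Y(1/t_l) Ω S_l` is at least `r` in degree at most `δ`. -/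
def Bound {m : ℕ} (β : Fin m → ℚ) (Ω : Matrix (Fin (2 * m)) (Fin (2 * m)) ℂ) (G k δ D r : ℕ) (c : ℝ) (M : ℕ) : Prop :=
  ∀ t : Fin k → ℕ, (∀ l, M ≤ t l ∧ (t l : ℝ) ≤ M + (M : ℝ) ^ c) → (∀ l l', l ≠ l' → (G : ℤ) ≤ |(t l : ℤ) - t l'|) →
    ∀ (K : IntermediateField ℚ ℂ) [FiniteDimensional ℚ K], finrank ℚ K ≤ D →
      ∀ R S : Fin k → (Matrix (Fin (2 * m)) (Fin (2 * m)) K)ˣ,
        TrdegGe r δ K (fun l => ((Real.log (t l) : ℝ) : ℂ)) fun l =>
          (R l : Matrix (Fin (2 * m)) (Fin (2 * m)) K).map (algebraMap K ℂ) * Y β (t l) * Ω *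
            (S l : Matrix (Fin (2 * m)) (Fin (2 * m)) K).map (algebraMap K ℂ)

/-- fewer numbers, and transposed matrices -/
theorem trdeg_mono {n k r r' δ : ℕ} (hr : r' ≤ r) {K : IntermediateField ℚ ℂ} {L : Fin k → ℂ}
    {P P' : Fin k → Matrix (Fin n) (Fin n) ℂ} (hP : ∀ l, P' l = (P l).transpose)
    (h : Pool.Agent.Results.MP_cbf1af_ag.AllTuplesDegenerating.TrdegGe r δ K L P) : TrdegGe r' δ K L P' := by
  classical
  obtain ⟨σ, hσ, h1⟩ := h
  set f : Fin r' → Fin r := Fin.castLE hr with hf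
  have hfi : Function.Injective f := Fin.castLE_injective hr
  refine ⟨fun i => ((σ (f i)).1, (σ (f i)).2.map Prod.swap), fun i j hij => ?_, fun Q hQ h0 => ?_⟩
  · apply hfi
    apply hσ
    have h2 := congrArg Prod.fst hij
    have h3 := congrArg Prod.snd hij
    exact Prod.ext h2 (Option.map_injective Prod.swap_injective h3)
  · have h2 : MvPolynomial.rename f Q = 0 := by
      refine h1 _ (fun i => ?_) ?_
      · by_cases hi : ∃ j, f j = i
        · obtain ⟨j, rfl⟩ := hi
          rw [MvPolynomial.degreeOf_rename_of_injective hfi]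
          exact hQ j
        · have h3 : i ∉ (MvPolynomial.rename f Q).vars := by
            intro hcon
            have h4 := MvPolynomial.vars_rename f Q hcon
            obtain ⟨j, -, hj⟩ := Finset.mem_image.1 h4
            exact hi ⟨j, hj⟩
          rw [MvPolynomial.degreeOf_le_iff]
          intro x hx
          rw [MvPolynomial.mem_support_notMem_vars_zero hx h3]
          exact Nat.zero_le _
      · rw [MvPolynomial.aeval_rename]
        refine Eq.trans (congrArg (fun F : Fin r' → ℂ => MvPolynomial.aeval F Q) ?_) h0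
        funext i
        show (σ (f i)).2.elim _ _ = ((σ (f i)).2.map Prod.swap).elim _ _
        rcases (σ (f i)).2 with _ | ⟨a, b⟩
        · rfl
        · show P (σ (f i)).1 a b = P' (σ (f i)).1 b a
          rw [hP]
          rfl
    exact MvPolynomial.rename_injective f hfi (by rw [h2, map_zero])

theorem frob_eq {m : ℕ} (β : Fin m → ℚ) (k : ℕ) : frob β k = Pool.Agent.Y119.HY.aq (2 * m) (Pool.Agent.Y119.HY.QB β) k := by
  unfold frob Pool.Agent.Y119.HY.aq
  refine Finset.prod_congr rfl fun l _ => ?_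
  congr 1
  unfold Pool.Agent.Y119.HY.QB
  rw [map_prod]
  refine Finset.prod_congr rfl fun j _ => ?_
  simp only [map_sub, map_pow, Polynomial.aeval_X, Polynomial.aeval_C]
  rfl

theorem Y_eq {m : ℕ} (β : Fin m → ℚ) (t : ℕ) :
    Y β t = Pool.Agent.Y119.HZ.Yt (2 * m) (Pool.Agent.Y119.HY.QB β) t := by
  ext i j
  unfold Y Pool.Agent.Y119.HZ.Yt
  rw [Matrix.of_apply, Matrix.mul_apply]
  have hE : ∀ c : Fin (2 * m), Pool.Agent.Y119.HY.E (Pool.Agent.Y119.HY.cm (Pool.Agent.Y119.HY.Am (2 * m)))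
      (-((Real.log t : ℝ) : ℂ)) c j = ∑ l ∈ Finset.range (2 * m),
        if (j : ℕ) = c + l then ((Real.log (1 / t) ^ l / l.factorial : ℝ) : ℂ) else 0 := by
    intro c
    unfold Pool.Agent.Y119.HY.E
    rw [Matrix.sum_apply]
    refine Finset.sum_congr rfl fun l _ => ?_
    rw [Matrix.smul_apply, ← Pool.Agent.Y119.HY.cm_pow, Pool.Agent.Y119.HY.cm_apply, Pool.Agent.Y119.HY.Am_pow, smul_eq_mul,
      one_div, Real.log_inv]
    split_ifs
    · push_cast
      ring
    · simp
  simp only [hE, Finset.mul_sum]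
  rw [Finset.sum_comm]
  have hsub : Finset.range ((j : ℕ) + 1) ⊆ Finset.range (2 * m) := by
    intro l hl
    rw [Finset.mem_range] at hl ⊢
    have := j.2
    omega
  refine Finset.sum_subset_zero_on_sdiff hsub (fun l hl => ?_) fun l hl => ?_
  · rw [Finset.mem_sdiff, Finset.mem_range, Finset.mem_range] at hl
    refine Finset.sum_eq_zero fun c _ => ?_
    rw [if_neg (by omega), mul_zero]
  · rw [Finset.mem_range] at hl
    have hj := j.2
    rw [Finset.sum_eq_single (⟨(j : ℕ) - l, by omega⟩ : Fin (2 * m))]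
    · rw [if_pos (by simp only; omega), mul_comm]
      congr 1
      unfold Pool.Agent.Y119.HY.Hf Pool.Agent.Y119.HY.ps
      rw [Matrix.of_apply]
      refine tsum_congr fun k => ?_
      show _ = ((Pool.Agent.Y119.HY.hq (2 * m) (Pool.Agent.Y119.HY.QB β) k i ((j : ℕ) - l) : ℚ) : ℂ) *
        (((1 / (t : ℝ) : ℝ)) : ℂ) ^ k
      rw [frob_eq]
      unfold Pool.Agent.Y119.HY.hq
      push_cast
      rfl
    · intro c _ hc
      rw [if_neg, mul_zero]
      intro h
      apply hc
      apply Fin.ext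
      simp only
      omega
    · intro h
      exact absurd (Finset.mem_univ _) h

/-- the residue matrix, transposed -/
def Nm (n : ℕ) : Matrix (Fin n) (Fin n) ℤ := Matrix.of fun i j => if (i : ℕ) = j + 1 then 1 else 0

theorem Nm_map (n : ℕ) : (Nm n).map (Int.castRingHom ℚ) = (Pool.Agent.Y119.HY.Am n).transpose := by
  ext i j
  rw [Matrix.map_apply, Matrix.transpose_apply]
  unfold Nm Pool.Agent.Y119.HY.Am
  rw [Matrix.of_apply, Matrix.of_apply]
  split_ifs <;> simp

theorem Nm_nil (n : ℕ) : Nm n ^ n = 0 := by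
  have h1 : ((Nm n) ^ n).map (Int.castRingHom ℚ) = 0 := by
    have h2 := map_pow (RingHom.mapMatrix (Int.castRingHom ℚ)) (Nm n) n
    rw [RingHom.mapMatrix_apply, RingHom.mapMatrix_apply, Nm_map, ← Matrix.transpose_pow, Pool.Agent.Y119.HY.Am_nil,
      Matrix.transpose_zero] at h2
    exact h2
  ext i j
  have h2 := congrFun (congrFun h1 i) j
  rw [Matrix.map_apply, Matrix.zero_apply] at h2
  have h3 : (((Nm n ^ n) i j : ℤ) : ℚ) = 0 := h2
  exact_mod_cast h3

/-- the exponential -/
theorem exp_eq (n : ℕ) (L : ℂ) : IsNilpotent.exp (L • (Nm n).map (Int.castRingHom ℂ)) =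
    (Pool.Agent.Y119.HY.E (Pool.Agent.Y119.HY.cm (Pool.Agent.Y119.HY.Am n)) L).transpose := by
  have h0 : (Nm n).map (Int.castRingHom ℂ) = (Pool.Agent.Y119.HY.cm (Pool.Agent.Y119.HY.Am n)).transpose := by
    ext i j
    rw [Matrix.map_apply, Matrix.transpose_apply, Pool.Agent.Y119.HY.cm_apply]
    unfold Nm Pool.Agent.Y119.HY.Am
    rw [Matrix.of_apply, Matrix.of_apply]
    split_ifs <;> simp
  rw [h0]
  have h1 : (Pool.Agent.Y119.HY.cm (Pool.Agent.Y119.HY.Am n)) ^ n = 0 := Pool.Agent.Y119.HY.Ac_nil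
  have h2 : (L • (Pool.Agent.Y119.HY.cm (Pool.Agent.Y119.HY.Am n)).transpose) ^ n = 0 := by
    rw [smul_pow, ← Matrix.transpose_pow, h1, Matrix.transpose_zero, smul_zero]
  rw [IsNilpotent.exp_eq_sum h2]
  unfold Pool.Agent.Y119.HY.E
  rw [Matrix.transpose_sum]
  refine Finset.sum_congr rfl fun i _ => ?_
  rw [smul_pow, ← Matrix.transpose_pow, Matrix.transpose_smul]
  ext a b
  rw [Matrix.smul_apply, Matrix.smul_apply, Matrix.smul_apply, Rat.smul_def, smul_eq_mul, smul_eq_mul]
  push_cast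
  ring

/-- **The theorem.** `G` depends only on `β`; in the first part `c` and `M₀` depend only on `β` and on `k, δ, D`. -/
theorem result (m : ℕ) (hm : 1 ≤ m) (β : Fin m → ℚ) (hβ : ∀ j, ∀ a : ℤ, β j ≠ a) :
    ∃ G : ℕ, ∀ k δ D : ℕ,
      (∃ (c : ℝ) (M₀ : ℕ), 0 < c ∧ ∀ M : ℕ, M₀ ≤ M → ∀ Ω : Matrix (Fin (2 * m)) (Fin (2 * m)) ℂ, IsUnit Ω →
        Bound β Ω G k δ D ((k - 1) * (m * (2 * m + 1) + 1)) c M) ∧
      ∀ Ω : Matrix (Fin (2 * m)) (Fin (2 * m)) ℂ, IsUnit Ω → ∀ (s : ℕ) (ω : Fin s → ℂ),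
        (∀ i j, IsAlgebraic (Algebra.adjoin ℚ (Set.range ω)) (Ω i j)) →
        ∃ (c : ℝ) (M₀ : ℕ), 0 < c ∧ ∀ M : ℕ, M₀ ≤ M → Bound β Ω G k δ D (k * (m * (2 * m + 1) + 1) - (s + 1)) c M := by
  classical
  have hβ' : ∀ j, ∀ l : ℕ, (l : ℚ) + β j ≠ 0 ∧ (l : ℚ) + -β j ≠ 0 := by
    intro j l
    constructor
    · intro h
      apply hβ j (-(l : ℤ))
      push_cast
      linear_combination h
    · intro h
      apply hβ j (l : ℤ)
      push_cast
      linear_combination -h
  set n := 2 * m with hn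
  set Q := Pool.Agent.Y119.HY.QB β with hQd
  have hQ : Pool.Agent.Y119.HY.QD n Q := Pool.Agent.Y119.HZ.QD_QB hm hβ'
  have hH : ∀ i j, Pool.Agent.Y113.SDc (Pool.Agent.Y119.HZ.Hp n Q i j) := Pool.Agent.Y119.HY.sdc_hps hβ' hQ
  have hW := Pool.Agent.Y119.HZ.SDc_Wp hH
  have hGC : ∀ g : ℚ⟦X⟧, Pool.Agent.Y113.SDc g → Pool.Agent.Results.MP_cbf1af_ag.AllTuplesDegenerating.GCond g := by
    rintro g ⟨a, h1, h2⟩
    exact ⟨(2 : ℝ) ^ a, h1, h2⟩
  obtain ⟨D0, b, hD0, hb⟩ := Pool.Agent.Y119.HZ.exists_b n Q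
  set Z : Matrix (Fin n) (Fin n) ℚ⟦X⟧ := (Pool.Agent.Y119.HZ.Hp n Q).transpose with hZ
  set W : Matrix (Fin n) (Fin n) ℚ⟦X⟧ := (Pool.Agent.Y119.HZ.Wp n Q).transpose with hWd
  have hmain := Pool.Agent.Results.MP_cbf1af_ag.AllTuplesDegenerating.result n (Pool.Agent.Y119.HZ.T1 D0)
    (fun k i => Pool.Agent.Y119.HZ.A1 n D0 b i k) (Nm n) Z W ?_ (Nm_nil n) ?_ ?_ ?_ (fun i j => hGC _ (hH j i))
    (fun i j => hGC _ (hW j i))
  rotate_left
  · unfold Pool.Agent.Y119.HZ.T1
    intro h0
    have h1 := congrArg (Polynomial.eval 0) h0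
    simp at h1
    exact hD0 h1
  · intro i j
    have h1 := Pool.Agent.Y119.HZ.ode_int hQ hb j i
    have h2 : ∑ k, C (((Nm n) i k : ℤ) : ℚ) * Z k j =
        ∑ k, Pool.Agent.Y119.HZ.Hp n Q j k * C (Pool.Agent.Y119.HY.Am n k i) := by
      refine Finset.sum_congr rfl fun k _ => ?_
      have h3 := congrFun (congrFun (Nm_map n) i) k
      rw [Matrix.map_apply, Matrix.transpose_apply] at h3
      rw [← h3, mul_comm]
      rfl
    rw [h2]
    refine (show _ = _ from h1).trans ?_
    refine Finset.sum_congr rfl fun k _ => ?_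
    rw [mul_comm]
    rfl
  · intro i j
    have h2 := congrFun (congrFun (Pool.Agent.Y119.HZ.cf_Hp (n := n) (Q := Q) 0) j) i
    rw [Pool.Agent.Y119.HY.Hq_zero, Matrix.one_apply] at h2
    have h3 : (if i = j then (1 : ℚ) else 0) = if j = i then 1 else 0 := by simp only [eq_comm]
    rw [h3]
    exact h2
  · rw [hWd, hZ, ← Matrix.transpose_mul, Pool.Agent.Y119.HZ.mul_Wp hQ, Matrix.transpose_one]
  -- the rank
  have hrank : m * (2 * m + 1) ≤ Pool.Agent.Results.MP_cbf1af_ag.AllTuplesDegenerating.rank Z := by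
    obtain ⟨T, hT⟩ := Pool.Agent.R739.HA.exists_indep hQ (d := m * (2 * m + 1)) (by rw [hn]; ring)
    refine le_csSup ?_ ⟨fun i => ((T i).2, (T i).1), hT⟩
    refine ⟨Fintype.card (Fin n × Fin n), ?_⟩
    rintro d ⟨T, hT⟩
    have h1 : Function.Injective T := by
      intro i j hij
      exact hT.injective (by
        show Z (T i).1 (T i).2 = Z (T j).1 (T j).2
        rw [hij])
    simpa using Fintype.card_le_of_injective T h1
  -- the periods
  have hper : ∀ (Ω : Matrix (Fin n) (Fin n) ℂ) (t : ℕ),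
      Pool.Agent.Results.MP_cbf1af_ag.AllTuplesDegenerating.periods Ω.transpose (Nm n) Z t = (Y β t * Ω).transpose := by
    intro Ω t
    unfold Pool.Agent.Results.MP_cbf1af_ag.AllTuplesDegenerating.periods
    rw [exp_eq, Y_eq, Matrix.transpose_mul, Matrix.mul_assoc]
    congr 1
    unfold Pool.Agent.Y119.HZ.Yt
    rw [Matrix.transpose_mul]
    congr 1
    ext i j
    rw [Matrix.transpose_apply]
    exact Pool.Agent.Y119.HZ.ev_Hp (n := n) (Q := Q) (t : ℝ) j i
  have conv : ∀ (Ω : Matrix (Fin n) (Fin n) ℂ) (G k δ D r r' : ℕ) (c : ℝ) (M : ℕ), r' ≤ r →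
      Pool.Agent.Results.MP_cbf1af_ag.AllTuplesDegenerating.Bound Ω.transpose (Nm n) Z G k δ D r c M →
      Bound β Ω G k δ D r' c M := by
    intro Ω G k δ D r r' c M hr h t ht hsep K _ hK R S
    have h1 := h t ht hsep K hK
      (fun l => ⟨(S l : Matrix (Fin n) (Fin n) K).transpose, ((S l)⁻¹ : (Matrix (Fin n) (Fin n) K)ˣ).val.transpose, by
        rw [← Matrix.transpose_mul, Units.inv_mul, Matrix.transpose_one], by
        rw [← Matrix.transpose_mul, Units.mul_inv, Matrix.transpose_one]⟩)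
      (fun l => ⟨(R l : Matrix (Fin n) (Fin n) K).transpose, ((R l)⁻¹ : (Matrix (Fin n) (Fin n) K)ˣ).val.transpose, by
        rw [← Matrix.transpose_mul, Units.inv_mul, Matrix.transpose_one], by
        rw [← Matrix.transpose_mul, Units.mul_inv, Matrix.transpose_one]⟩)
    refine trdeg_mono hr (fun l => ?_) h1
    show _ = ((S l : Matrix (Fin n) (Fin n) K).transpose.map (algebraMap K ℂ) *
      Pool.Agent.Results.MP_cbf1af_ag.AllTuplesDegenerating.periods Ω.transpose (Nm n) Z (t l) *
      (R l : Matrix (Fin n) (Fin n) K).transpose.map (algebraMap K ℂ)).transpose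
    rw [hper, Matrix.transpose_mul, Matrix.transpose_mul, Matrix.transpose_transpose, Matrix.transpose_map,
      Matrix.transpose_map, Matrix.transpose_transpose, Matrix.transpose_transpose]
    simp only [Matrix.mul_assoc]
  obtain ⟨G, hG⟩ := hmain
  refine ⟨G, fun k δ D => ⟨?_, fun Ω hΩ s ω hω => ?_⟩⟩
  · obtain ⟨c, M₀, hc, h1⟩ := (hG k δ D).1
    refine ⟨c, M₀, hc, fun M hM Ω hΩ => conv Ω G k δ D _ _ c M ?_ (h1 M hM Ω.transpose ?_)⟩
    · exact Nat.mul_le_mul_left _ (Nat.add_le_add_right hrank 1)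
    · rw [Matrix.isUnit_transpose]
      exact hΩ
  · obtain ⟨c, M₀, hc, h1⟩ := (hG k δ D).2 Ω.transpose (by
      rw [Matrix.isUnit_transpose]
      exact hΩ) s ω (fun i j => hω j i)
    refine ⟨c, M₀, hc, fun M hM => conv Ω G k δ D _ _ c M ?_ (h1 M hM)⟩
    exact Nat.sub_le_sub_right (Nat.mul_le_mul_left _ (Nat.add_le_add_right hrank 1)) _

end Pool.Agent.Results.MP_57341d_ag.HypergeometricAllTuples
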