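import Pool.Agent.R920.PD.Grp
import Pool.Agent.Y121.AHS.Defs

/-!
# Periods and the algebra generated by the Mumford-Tate group

Let `X` be a smooth projective variety over the field `F` of algebraic numbers such that the Hodge
classes on all powers of `X` are de Rham-Betti classes (this holds if they are absolutely Hodge, for
example for abelian varieties, by Deligne). Let `MT` be the Mumford-Tate group of `X`, `m n` the
dimension of the algebra generated by `MT` on the cohomology of `X ^ n`, and `p n` the number of
periods of `X ^ n` which are linearly independent over `F`. The quotient `m n / p n` converges to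
an element `N` of `{1, 2, …, ∞}`; we have `N < ∞` if and only if the transcendence degree of the
field generated by the periods of `X` is equal to the dimension of `MT`, and then
`m n ≤ N p n` for all `n`; we have `N = 1` if and only if all polynomial relations between the
periods of `X` come from Hodge classes.

If `p d ≠ m d` for some `d` then `m n ≥ (2 - 2 d b / (n + 1)) p n` for all `n`, where `b` is the
number of linearly independent periods of `X`, and even `(n + 1) p n ≤ 3 d b m n` if the torsor is
irreducible (which holds since the Mumford-Tate group is connected).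
-/

open CategoryTheory AlgebraicGeometry Module

universe u

namespace Pool.Agent.Results.MP_57341d_ag.MumfordTateAlgebra

open Pool.Agent.H914 Pool.Agent.H914.VarClass Pool.Agent.H914.VarClass.Obj
  Pool.Agent.H914.WeilCohomology Pool.Agent.Y133.Per Pool.Agent.R920.PD Pool.Agent.Y121.AHS
open Pool.Agent.Y133.Half (pw HasIndex)

variable {k : Type u} [Field k] {𝒱 : VarClass k} {ops : CycleOps 𝒱}

/-- The Hodge classes. -/
def hodgeClasses (T : HodgeTheory ops) : Classes T.W := fun Y j => {c | IsHodge T Y j c}

/-- The Hodge classes on all powers of `X` are de Rham-Betti classes. -/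
def HodgeAreDRB (T : HodgeTheory ops) {F : Subfield ℂ} (D : DeRham T.W F) (X : 𝒱.Obj) : Prop :=
  ∀ n j c, IsHodge T (pw X n) j c → IsDRB D (pw X n) j c

/-- **The law for the periods and the algebra generated by the Mumford-Tate group.** -/
theorem result (T : HodgeTheory ops) {F : Subfield ℂ} [IsAlgClosed F] (D : DeRham T.W F)
    (X : 𝒱.Obj) [Nontrivial (T.W.H X)] (hX : HodgeAreDRB T D X) (p m : ℕ → ℕ)
    (hp : ∀ n, p n = finrank F (periods D (pw X n)))
    (hm : ∀ n, m n = coeffDim T.W (hodgeClasses T) X n) :
    ∃ N : ℕ∞, 1 ≤ N ∧ HasIndex m p N ∧ (∀ r : ℕ, N = r → ∀ n, m n ≤ r * p n) ∧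
      (N ≠ ⊤ ↔ TrdegIsDim D (hodgeClasses T) X) ∧ (N = 1 ↔ ∀ n, p n = m n) ∧
      (∀ d n, p d = m d ∨ ((2 : ℝ) - 2 * (d + 1) * p 0 / (n + 2)) * p n ≤ m n) ∧
      (IsConnectedGroup T.W (hodgeClasses T) X →
        ∀ d n, p d = m d ∨ (n + 2) * p n ≤ 3 * (d + 1) * p 0 * m n) := by
  have h := T.cyc X 0 X.V.fundCycle X.V.fundCycle_mem
  rw [T.W.cl_fund] at h
  obtain ⟨N, h1, h2, h3, h4, -, h6, h7, h8⟩ := group_law (C := hodgeClasses T) D h
    (fun n j c hc => (hX n j c hc).2) p m hp hm
  exact ⟨N, h1, h2, h3, h4, h6, h7, h8⟩

end Pool.Agent.Results.MP_57341d_ag.MumfordTateAlgebra
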