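import Pool.Agent.R918.SqD

set_option autoImplicit false

/-!
# The period torsor of products of K3 surfaces

Let `A` be an abelian variety of dimension `g` over the field `ℚ̄` of algebraic numbers, and let
`c : H^1_dR(A / ℚ̄) ⊗ ℂ → H^1(A, ℚ) ⊗ ℂ` be the comparison isomorphism, given by the periods. The
equality `trdeg K(c_M) = dim MT(M)` for the motive `M = h^1(A)` says that the Zariski closure of `c` over
`ℚ̄` has the dimension of the Mumford-Tate group. As the closure is contained in the torsor of the
Mumford-Tate group (Deligne), the equality says that the closure is this torsor (which is connected). It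
implies that `c` is contained in no torsor over `ℚ̄` of an algebraic group `G ⊆ GL(H^1(A, ℚ))` over `ℚ`,
unless `G` contains the Mumford-Tate group.

**Theorem.** Assume that `A` is of spin product type (`TypeSpinProduct`): `A` is isogenous to a product of
abelian varieties `A_1, …, A_m`; each `H_1(A_i, ℂ)` is a representation of a Clifford algebra whose
generators have several colours, and the complexification of the Lie algebra of the Hodge group of `A` is
the sum of the orthogonal Lie algebras `so(r_{i σ})` for all `i` and all colours `σ` (a colour with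
`r_{i σ}` generators), where `so(r_{i σ})` acts on `H_1(A_i, ℂ)` through the Clifford algebra (a sum of
spin representations) and by zero on the other `H_1(A_j, ℂ)`; the Lie algebra over `ℚ` of the Hodge
group of `A_i` is simple, and `r_{i σ} ≥ 6`; and the number `8` occurs for at most one `i` among the
numbers `r_{i σ}`. Let `G` be an algebraic subgroup of `GL(H^1(A, ℚ))`, defined over `ℚ`, with a torsor
defined over `ℚ̄` which contains `c`. Then `G` contains the Mumford-Tate group of `A`.

So the smallest torsor (for groups over `ℚ`) which contains `c` is the torsor of the Mumford-Tate group,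
and all de Rham-Betti classes on all powers of `A` are Hodge classes (and then absolute Hodge classes
and motivated, by the theorems of Deligne and André). The same follows for all motives `M` in the
category generated by `h^1(A)`: the smallest torsor which contains `c_M` is the torsor of `MT(M)`, of
dimension `dim MT(M)`.

The group `G` is not assumed to be reductive, and no relation between `G` and the Hodge classes is
assumed. Nothing is assumed about the periods: `AbVar` is the description of an abelian variety over
`ℚ̄` by theta functions (see `Pool/Agent/Y102/AVDefs.lean`), and all theorems about transcendental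
numbers which are used (the theorem of Schneider and Lang, the transcendence of `π`) are proved in this
repository.

## Examples: arbitrary products of K3 surfaces with real multiplication

Let `X_1, …, X_n` be K3 surfaces over `ℚ̄` (or hyperkähler varieties, cubic fourfolds, …) and let `T_i`
be the transcendental part of the cohomology of `X_i` in degree two. Suppose that the endomorphism field
`E_i` of the Hodge structure `T_i` is totally real (for example `ℚ`), that `r_i = dim_{E_i} T_i` is at
least `6`, and that those `T_i` for which `r_i = 8` are all isomorphic, up to a change of the form. By a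
theorem of Zarhin the Lie algebra of the Hodge group of `T_i` is `so_{E_i}(T_i)`, which is simple over
`ℚ`, and `so_{E_i}(T_i) ⊗ ℂ` is the sum of the Lie algebras `so(r_i)` for the embeddings of `E_i`; and
the Lie algebra of the Hodge group of the sum of pairwise not isomorphic `T_i` is the sum of the
`so_{E_i}(T_i)`. Let `A` be the product of the Kuga-Satake varieties of the `X_i`. The factor `A_j` of the
theorem, for an isomorphism class, is the product of the Kuga-Satake varieties of the members of the
class, the colours are the embeddings of `E_j`. By a theorem of André the motives of the `X_i` are in the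
category generated by `h^1(A)`. So the theorem determines the smallest torsor of the periods of
`X_1 × … × X_n`, and shows that all de Rham-Betti classes on `X_1 × … × X_n`, in all degrees, are Hodge
classes and motivated.

For `m = 1` (powers of one such K3 surface) this is known (Kreutz, Shen and Vial for the de Rham-Betti
classes; the spin type in this repository). The products of different K3 surfaces are new, to our
knowledge: the problem is that the Lie algebra obtained from the periods could be the graph of an
isomorphism between `so_{E_i}(T_i)` and `so_{E_j}(T_j)` which is not compatible with the Hodge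
structures. (Products in which the ranks of the `T_i` are pairwise different, with `E_i = ℚ`, are treated
in `AnyVarietyTimesK3` in this repository.)

## Proof

The Lie algebra of `G` is defined over `ℚ` and stable under linear maps, so it contains the rational
components of all logarithmic derivatives of the period matrix. By the theorem of Schneider and Lang
(see `Pool/Agent/R917` and `Pool/Agent/Y102`) one obtains a Lie subalgebra `𝔮` of the Lie algebra `𝔤` of
the Hodge group which acts semisimply on `H_1(A, ℚ)` and has the same commutant as `𝔤`. So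
`𝔥 = 𝔮 ⊗ ℂ` generates the same associative algebra as `𝔤 ⊗ ℂ`, and `Pool.Agent.R918.Sp.SqHyp.all`
shows `𝔥 = 𝔤 ⊗ ℂ`:

1. The projection of `𝔮` to the Lie algebra `𝔤_i` of the Hodge group of each `A_i` is surjective (this is
   the theorem for `m = 1`, `Pool.Agent.Y102.SP.main_col`).
2. By the lemma of Goursat and Ribet, if `𝔮` is not everything, its projection to two summands
   `𝔤_i ⊕ 𝔤_j` is the graph of an isomorphism, as these Lie algebras are simple over `ℚ` and perfect
   (`Pool.Agent.R918.Sp.dich_of`).
3. Over `ℂ`, this isomorphism maps the summands `so(r_{i σ})` to the summands `so(r_{j τ})`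
   (`Pool.Agent.R918.Sp.LnkC.exists_colour`).
4. An isomorphism between `so(r)` and `so(s)`, where `r ≥ 5` is not `8`, is compatible with the spin
   representations (`Pool.Agent.R918.Sp.Lnk.rels`). One shows `r = s` with the Killing form, and that
   the images of the generators `E_a E_b` satisfy a cubic equation `(r - 8) (f ^ 3 + f) = 0` in the
   standard representation, so they are of rank two (this fails for `r = 8` because of triality); then
   their images in the Clifford algebra have square `-1`, and satisfy all relations of the even Clifford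
   algebra. The proof does not use root systems or the classification of automorphisms.
5. So the images of the products `E_a E_b` of generators of the same colour satisfy the relations of the
   tensor product of the even Clifford algebras, and there is a nonzero `𝔥`-equivariant map from
   `H_1(A_i, ℂ)` to `H_1(A_j, ℂ)` (`Pool.Agent.R918.Sp.LnkC.exists_inter`). It commutes with the
   associative algebra generated by `𝔤 ⊗ ℂ`, which contains the projections to `H_1(A_i, ℂ)` and
   `H_1(A_j, ℂ)`. This is a contradiction.
-/

open Module Matrix Pool.Agent.Y102 Pool.Agent.W516.DR Pool.Agent.H204R3.GP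

noncomputable section

namespace Pool.Agent.Results.MP_57341d_ag.SpinProducts

variable {g : ℕ} (A : AbVar g)

/-! ### The hypothesis on the Lie algebra of the Hodge group -/

/-- The multilinear forms in `2m` variables in the rational homology. -/
abbrev Form (m : ℕ) : Type := MultilinearMap ℚ (fun _ : Fin m × Fin 2 => A.H1) ℚ

/-- `φ` is a de Rham-Betti class in `H^1(A) ^ {⊗ 2m} (m)`. -/
def IsDRB {m : ℕ} (φ : Form A m) : Prop :=
  IsDeRhamBettiForm QBar A.dR (2 * Real.pi * Complex.I) m φ

/-- `φ` is a Hodge class in `H^1(A) ^ {⊗ 2m} (m)`. -/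
def IsHodge {m : ℕ} (φ : Form A m) : Prop := IsHodgeTensor (A.per : A.H1 →+ (Fin g → ℂ)) φ

/-- The endomorphism `X` annihilates the form `φ` (as a derivation). -/
def Annihilates {m : ℕ} (X : Module.End ℚ A.H1) (φ : Form A m) : Prop :=
  ∀ v, ∑ k, φ (Function.update v k (X (v k))) = 0

/-- `X` is in the Lie algebra `𝔤`: it annihilates all classes that are Hodge classes and
de Rham-Betti classes. By theorems of Deligne and Blasius this is the Lie algebra of the Hodge
group. -/
def InLie (X : Module.End ℚ A.H1) : Prop :=
  ∀ (m : ℕ) (φ : Form A m), IsHodge A φ → IsDRB A φ → Annihilates A X φ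

/-- The matrix of the extension of an endomorphism of `H_1(A, ℚ)` to `H_1(A, ℂ)`. -/
def toC (X : Module.End ℚ A.H1) : Matrix (Fin (2 * g)) (Fin (2 * g)) ℂ :=
  Matrix.of fun i j => (X (Pi.single j 1) i : ℂ)

/-- The complex Lie algebra `𝔤 ⊗ ℂ`, acting on `H_1(A, ℂ)`. -/
def lieC : Submodule ℂ (Matrix (Fin (2 * g)) (Fin (2 * g)) ℂ) :=
  Submodule.span ℂ {Y | ∃ X, InLie A X ∧ Y = toC A X}

/-- The matrix of an endomorphism of `H_1(A, ℚ) = ℚ ^ {2g}`. -/
def toQ (X : Module.End ℚ A.H1) : Matrix (Fin (2 * g)) (Fin (2 * g)) ℚ :=
  Matrix.of fun i j => X (Pi.single j 1) i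

/-- `H_1(A, ℚ) = ℚ ^ {2g}` is the direct sum of the nonzero spaces `ℚ ^ {d i}`, with the inclusions
`Q i` and the projections `P i` (the homology of the factors `A_i`). -/
def IsDecomposition {m : ℕ} {d : Fin m → ℕ} (P : ∀ i, Matrix (Fin (d i)) (Fin (2 * g)) ℚ)
    (Q : ∀ i, Matrix (Fin (2 * g)) (Fin (d i)) ℚ) : Prop :=
  (∀ i, 0 < d i) ∧ (∀ i, P i * Q i = 1) ∧ (∀ i j, i ≠ j → P i * Q j = 0) ∧ ∑ i, Q i * P i = 1

/-- The matrix `Y` is in the Lie algebra (over `ℚ`) of the Hodge group of the factor `A_i`, which is the
image of the Lie algebra of the Hodge group of `A`. -/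
def InFactor {m : ℕ} {d : Fin m → ℕ} (P : ∀ i, Matrix (Fin (d i)) (Fin (2 * g)) ℚ)
    (Q : ∀ i, Matrix (Fin (2 * g)) (Fin (d i)) ℚ) (i : Fin m)
    (Y : Matrix (Fin (d i)) (Fin (d i)) ℚ) : Prop :=
  ∃ X, InLie A X ∧ Y = P i * toQ A X * Q i

/-- The Lie algebra (over `ℚ`) of the Hodge group of the factor `A_i` is simple: the ideals are zero and
everything. -/
def IsSimple {m : ℕ} {d : Fin m → ℕ} (P : ∀ i, Matrix (Fin (d i)) (Fin (2 * g)) ℚ)
    (Q : ∀ i, Matrix (Fin (2 * g)) (Fin (d i)) ℚ) (i : Fin m) : Prop :=
  ∀ I : Submodule ℚ (Matrix (Fin (d i)) (Fin (d i)) ℚ), (∀ Y ∈ I, InFactor A P Q i Y) →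
    (∀ Z, InFactor A P Q i Z → ∀ Y ∈ I, Z * Y - Y * Z ∈ I) →
    (∀ Y ∈ I, Y = 0) ∨ ∀ Z, InFactor A P Q i Z → Z ∈ I

/-- The relations of the Clifford algebra with `N` generators. -/
def IsClifford {d N : ℕ} (E : Fin N → Matrix (Fin d) (Fin d) ℂ) : Prop :=
  (∀ a, E a * E a = 1) ∧ ∀ a b, a ≠ b → E a * E b = -(E b * E a)

/-- The number of the generators with the same colour as `a`. -/
def size {N k : ℕ} (c : Fin N → Fin k) (a : Fin N) : ℕ :=
  (Finset.univ.filter fun b => c b = c a).card

/-- The matrix with entries in `ℂ`. -/
def cast {p q : ℕ} (M : Matrix (Fin p) (Fin q) ℚ) : Matrix (Fin p) (Fin q) ℂ :=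
  M.map (algebraMap ℚ ℂ)

/-- **Spin product type.** `H_1(A, ℚ)` is a direct sum (of the homology of the factors `A_i`), such that
the Lie algebra of the Hodge group of each factor is simple over `ℚ`, the complexification of each
summand is a representation of a Clifford algebra with generators of several colours, each colour which
occurs has at least six generators, for at most one `i` there is a colour with exactly eight generators,
and `𝔤 ⊗ ℂ` is the sum of the orthogonal Lie algebras of all the colours, spanned by the products of two
different generators of the same colour. -/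
def TypeSpinProduct : Prop :=
  ∃ (m : ℕ) (d N k : Fin m → ℕ) (P : ∀ i, Matrix (Fin (d i)) (Fin (2 * g)) ℚ)
    (Q : ∀ i, Matrix (Fin (2 * g)) (Fin (d i)) ℚ)
    (E : ∀ i, Fin (N i) → Matrix (Fin (d i)) (Fin (d i)) ℂ) (c : ∀ i, Fin (N i) → Fin (k i)),
    IsDecomposition P Q ∧ (∀ i, IsSimple A P Q i) ∧ (∀ i, IsClifford (E i)) ∧
    (∀ i, 0 < N i) ∧ (∀ i a, 6 ≤ size (c i) a) ∧
    (∀ i j, i ≠ j → (∃ a, size (c i) a = 8) → ∀ b, size (c j) b ≠ 8) ∧
    lieC A = Submodule.span ℂ {Y | ∃ i a b, a ≠ b ∧ c i a = c i b ∧
      Y = cast (Q i) * (E i a * E i b) * cast (P i)}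

/-! ### Algebraic groups, periods and the Mumford-Tate group -/

/-- A subgroup of `GL_R(ℂ)` defined by polynomials with rational coefficients. -/
def IsAlgebraicSubgroup {R : Type} [Fintype R] [DecidableEq R] (G : Subgroup (GL R ℂ)) : Prop :=
  ∃ I : Set (MvPolynomial (R × R) ℚ), ∀ x : GL R ℂ, x ∈ G ↔
    ∀ p ∈ I, MvPolynomial.aeval (fun b : R × R => (x : Matrix R R ℂ) b.1 b.2) p = 0

/-- The comparison isomorphism: the periods of the basis of `H^1_dR(A / ℚ̄)` (the columns) on the
basis of the lattice (the rows). -/
def periodMatrix : Matrix (Fin (2 * g)) (Fin g ⊕ Fin g) ℂ :=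
  Matrix.of fun j i => A.dR i (Pi.single j 1)

/-- The torsor `G · T⁻¹` of `G`: the isomorphisms `F` such that `F T` is an element of `G`. It is
defined over `ℚ̄` if `T` is a matrix with algebraic entries. -/
def torsor {g : ℕ} (G : Subgroup (GL (Fin (2 * g)) ℂ))
    (T : Matrix (Fin g ⊕ Fin g) (Fin (2 * g)) ℂ) : Set (Matrix (Fin (2 * g)) (Fin g ⊕ Fin g) ℂ) :=
  {F | ∃ x ∈ G, (x : Matrix (Fin (2 * g)) (Fin (2 * g)) ℂ) = F * T}

/-- The Hodge structure of `H^1(A)`: the complex number `z` acts on `H_1(A, ℝ) = ℂ ^ g` by
multiplication, and on `H^1(A, ℝ)` by the transposed map, here in the basis of `H^1(A, ℚ)` which is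
dual to the basis of the lattice. -/
def hodge (z : ℂ) : Matrix (Fin (2 * g)) (Fin (2 * g)) ℂ :=
  Matrix.of fun i j => ((A.lam.repr (z • A.lam i) j : ℝ) : ℂ)

/-- The Mumford-Tate group of `H^1(A)`: the smallest algebraic group over `ℚ` which contains the
image of the Deligne torus. -/
def mumfordTate : Subgroup (GL (Fin (2 * g)) ℂ) :=
  sInf {G | IsAlgebraicSubgroup G ∧ ∀ z : ℂ, z ≠ 0 → ∃ x ∈ G,
    (x : Matrix (Fin (2 * g)) (Fin (2 * g)) ℂ) = hodge A z}

/-- **Theorem.** Let `A` be an abelian variety of spin product type, for example the product of the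
Kuga-Satake varieties of different K3 surfaces with real multiplication. If the comparison isomorphism
is contained in a torsor over `ℚ̄` of an algebraic group `G` over `ℚ`, then `G` contains the
Mumford-Tate group of `A`. -/
theorem result (g : ℕ) (A : AbVar g) (h : TypeSpinProduct A) (G : Subgroup (GL (Fin (2 * g)) ℂ))
    (hG : IsAlgebraicSubgroup G) (T : Matrix (Fin g ⊕ Fin g) (Fin (2 * g)) ℂ)
    (hT : ∀ i j, IsAlgebraic ℚ (T i j)) (hc : periodMatrix A ∈ torsor G T) :
    mumfordTate A ≤ G := by
  obtain ⟨m, d, N, k, P, Q, E, c, ⟨h1, h2, h3, h4⟩, hs, hE, hN, h6, h8, hl⟩ := h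
  obtain ⟨x, hx, hxT⟩ := hc
  have hpt := Pool.Agent.R917.pt_of (A := A) hG hT hx hxT
  have e1 : (1 : Matrix (Fin (2 * g)) (Fin (2 * g)) ℚ).map (algebraMap ℚ ℂ) = 1 :=
    Matrix.map_one _ (map_zero _) (map_one _)
  have hB : Pool.Agent.R918.Sp.Blk (Pool.Agent.R918.Sp.Pc P) (Pool.Agent.R918.Sp.Qc Q) E :=
    { pos := h1
      same := fun i => by
        unfold Pool.Agent.R918.Sp.Pc Pool.Agent.R918.Sp.Qc
        rw [← Matrix.map_mul, h2]
        exact Matrix.map_one _ (map_zero _) (map_one _)
      diff := fun i j hij => by
        unfold Pool.Agent.R918.Sp.Pc Pool.Agent.R918.Sp.Qc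
        rw [← Matrix.map_mul, h3 i j hij]
        exact Matrix.map_zero _ (map_zero _)
      sum := by
        have h5 := congrArg (fun M : Matrix (Fin (2 * g)) (Fin (2 * g)) ℚ =>
          (algebraMap ℚ ℂ).mapMatrix M) h4
        simp only [map_sum, map_mul, map_one] at h5
        rw [← h5]
        refine Finset.sum_congr rfl fun i _ => ?_
        unfold Pool.Agent.R918.Sp.Pc Pool.Agent.R918.Sp.Qc
        rw [← Matrix.map_mul]
        rfl
      sq := fun i => (hE i).1
      anti := fun i => (hE i).2 }
  have e2 : ∀ X : Module.End ℚ A.H1, toQ A X = LinearMap.toMatrix' X := fun X => by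
    ext i j
    rw [LinearMap.toMatrix'_apply]
    rfl
  have hs' : ∀ i, Pool.Agent.R918.Sp.SimpleBlock A P Q i := by
    intro i I hI1 hI2
    rcases hs i I (fun Y hY => by
        obtain ⟨X, hX, h6⟩ := hI1 Y hY
        exact ⟨X, hX, by rw [h6, e2]⟩) (by
      rintro _ ⟨X, hX, rfl⟩ Y hY
      rw [e2]
      exact hI2 X hX Y hY) with h5 | h5
    · exact Or.inl h5
    · exact Or.inr fun X hX => by
        rw [← e2]
        exact h5 _ ⟨X, hX, rfl⟩
  obtain ⟨l1, l2⟩ := Pool.Agent.R918.Sp.sum_lieC (A := A) (c := c) hB hN h6 h8 hl hs' hpt
  refine sInf_le ⟨hG, fun z hz => ?_⟩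
  exact Pool.Agent.R917.hm_mem hpt.grp l1 l2 hz

end Pool.Agent.Results.MP_57341d_ag.SpinProducts
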